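import Pool.Agent.Helper84.TN.Tree

/-!
# Networks of small treewidth have small unfolding ranks
-/

namespace Pool.Agent.Helper79.TN

open Pool.Agent.Helper84.TN

section Rank

variable {ι β F : Type*} [DecidableEq ι] [Field F]

/-- a sum of `n` products has rank at most `n` -/
theorem rk_le_card {κ : Type*} (C : Finset κ) (f : (ι → β) → F) (D : Finset ι)
    (g h : κ → (ι → β) → F)
    (hf : ∀ v w, f (D.piecewise v w) = ∑ c ∈ C, g c v * h c w) : rk f D ≤ C.card := by
  classical
  have h1 : Submodule.span F (Set.range (row f D)) ≤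
      Submodule.span F ((C.image h : Finset ((ι → β) → F)) : Set ((ι → β) → F)) := by
    rw [Submodule.span_le]
    rintro _ ⟨v, rfl⟩
    have h2 : row f D v = ∑ c ∈ C, g c v • h c := by
      ext w
      rw [Finset.sum_apply]
      exact hf v w
    rw [h2]
    exact Submodule.sum_mem _ fun c hc => Submodule.smul_mem _ _
      (Submodule.subset_span (Finset.mem_coe.2 (Finset.mem_image_of_mem h hc)))
  exact (Submodule.finrank_mono h1).trans
    ((finrank_span_finset_le_card _).trans Finset.card_image_le)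

end Rank

section Network

variable {ι β F V τ : Type*} [DecidableEq ι] [Fintype ι] [Fintype β] [DecidableEq β] [Field F]
  [Fintype V] [DecidableEq V] [Fintype τ] [DecidableEq τ]

/-- A network with the tensors `φ t`: `φ t` depends only on the variables in `B t`, and `f w` is the
sum over all assignments `z` of the variables which are `w` on the digits of the product of the
tensors. -/
structure Net (e : ι → V) (B : τ → Finset V) (φ : τ → (V → β) → F) (f : (ι → β) → F) : Prop where
  dep : ∀ t z z', (∀ v ∈ B t, z v = z' v) → φ t z = φ t z'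
  eq : ∀ w, f w = ∑ z : V → β, if ∀ i, z (e i) = w i then ∏ t, φ t z else 0

/-- The variables in `S` separate the digits in `D` and the tensors in `E` from the others. -/
def Sep (e : ι → V) (B : τ → Finset V) (D : Finset ι) (E : Finset τ) (S : Finset V) : Prop :=
  ∀ v ∉ S, ((∀ i ∉ D, e i ≠ v) ∧ ∀ t ∉ E, v ∉ B t) ∨ ((∀ i ∈ D, e i ≠ v) ∧ ∀ t ∈ E, v ∉ B t)

theorem rk_sep [Nonempty β] {e : ι → V} {B : τ → Finset V} {φ : τ → (V → β) → F}
    {f : (ι → β) → F} (hN : Net e B φ f) {D : Finset ι} {E : Finset τ} {S : Finset V}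
    (hS : Sep e B D E S) : rk f D ≤ Fintype.card β ^ S.card := by
  classical
  obtain ⟨b₀⟩ := ‹Nonempty β›
  set V₁ : Finset V := Finset.univ.filter
    (fun v => v ∉ S ∧ (∀ i ∉ D, e i ≠ v) ∧ ∀ t ∉ E, v ∉ B t) with hV₁
  set V₂ : Finset V := Finset.univ.filter (fun v => v ∉ S ∧ v ∉ V₁) with hV₂
  have m1 : ∀ {v}, v ∈ V₁ → v ∉ S ∧ (∀ i ∉ D, e i ≠ v) ∧ ∀ t ∉ E, v ∉ B t := fun {v} hv =>
    (Finset.mem_filter.1 hv).2
  have m2 : ∀ {v}, v ∈ V₂ → v ∉ S ∧ v ∉ V₁ := fun {v} hv => (Finset.mem_filter.1 hv).2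
  have m2' : ∀ {v}, v ∈ V₂ → (∀ i ∈ D, e i ≠ v) ∧ ∀ t ∈ E, v ∉ B t := fun {v} hv =>
    (hS v (m2 hv).1).resolve_left fun h => (m2 hv).2
      (Finset.mem_filter.2 ⟨Finset.mem_univ _, (m2 hv).1, h⟩)
  have m3 : ∀ {v}, v ∉ V₁ → v ∉ V₂ → v ∈ S := fun {v} h1 h2 => by
    by_contra h
    exact h2 (Finset.mem_filter.2 ⟨Finset.mem_univ _, h, h1⟩)
  set C : Finset (V → β) := Fintype.piFinset
    (fun v => if v ∈ S then (Finset.univ : Finset β) else {b₀}) with hC
  have mC : ∀ {u : V → β}, u ∈ C ↔ ∀ v ∉ S, u v = b₀ := fun {u} => by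
    rw [hC, Fintype.mem_piFinset]
    refine forall_congr' fun v => ?_
    by_cases hv : v ∈ S
    · simp [hv]
    · simp [hv]
  have hcard : C.card = Fintype.card β ^ S.card := by
    rw [hC, Fintype.card_piFinset]
    have : ∀ v, (if v ∈ S then (Finset.univ : Finset β) else {b₀}).card =
        if v ∈ S then Fintype.card β else 1 := fun v => by
      split_ifs
      · exact Finset.card_univ
      · exact Finset.card_singleton _
    rw [Finset.prod_congr rfl fun v _ => this v, Finset.prod_ite_mem, Finset.univ_inter,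
      Finset.prod_const]
  set Z₁ : (V → β) → Finset (V → β) := fun u => Finset.univ.filter
    (fun z => ∀ v ∉ V₁, z v = u v) with hZ₁
  set Z₂ : (V → β) → Finset (V → β) := fun u => Finset.univ.filter
    (fun z => ∀ v ∉ V₂, z v = u v) with hZ₂
  rw [← hcard]
  refine rk_le_card C f D
    (fun u x => ∑ z ∈ Z₁ u, if ∀ i ∈ D, z (e i) = x i then ∏ t ∈ E, φ t z else 0)
    (fun u y => ∑ z ∈ Z₂ u, if ∀ i ∉ D, z (e i) = y i then ∏ t ∈ Eᶜ, φ t z else 0) fun x y => ?_
  rw [hN.eq]
  have h1 : ∀ u, (∑ z ∈ Z₁ u, if ∀ i ∈ D, z (e i) = x i then ∏ t ∈ E, φ t z else 0) *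
      (∑ z ∈ Z₂ u, if ∀ i ∉ D, z (e i) = y i then ∏ t ∈ Eᶜ, φ t z else 0) =
      ∑ p ∈ Z₁ u ×ˢ Z₂ u, (if ∀ i ∈ D, p.1 (e i) = x i then ∏ t ∈ E, φ t p.1 else 0) *
        (if ∀ i ∉ D, p.2 (e i) = y i then ∏ t ∈ Eᶜ, φ t p.2 else 0) := fun u => by
    rw [Finset.sum_mul_sum, Finset.sum_product]
  rw [Finset.sum_congr rfl fun u _ => h1 u, Finset.sum_sigma']
  refine Finset.sum_nbij'
    (fun z => ⟨S.piecewise z (fun _ => b₀), (V₂.piecewise (fun _ => b₀) z,
      V₁.piecewise (fun _ => b₀) z)⟩)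
    (fun q => V₁.piecewise q.2.1 q.2.2) ?_ ?_ ?_ ?_ ?_
  · intro z _
    rw [Finset.mem_sigma, Finset.mem_product]
    refine ⟨mC.2 fun v hv => ?_, Finset.mem_filter.2 ⟨Finset.mem_univ _, fun v hv => ?_⟩,
      Finset.mem_filter.2 ⟨Finset.mem_univ _, fun v hv => ?_⟩⟩
    · dsimp only
      rw [Finset.piecewise_eq_of_notMem _ _ _ hv]
    · dsimp only
      by_cases h2 : v ∈ V₂
      · rw [Finset.piecewise_eq_of_mem _ _ _ h2, Finset.piecewise_eq_of_notMem _ _ _ (m2 h2).1]
      · rw [Finset.piecewise_eq_of_notMem _ _ _ h2, Finset.piecewise_eq_of_mem _ _ _ (m3 hv h2)]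
    · dsimp only
      by_cases h2 : v ∈ V₁
      · rw [Finset.piecewise_eq_of_mem _ _ _ h2, Finset.piecewise_eq_of_notMem _ _ _ (m1 h2).1]
      · rw [Finset.piecewise_eq_of_notMem _ _ _ h2, Finset.piecewise_eq_of_mem _ _ _ (m3 h2 hv)]
  · intro q _
    exact Finset.mem_univ _
  · intro z _
    ext v
    dsimp only
    by_cases h2 : v ∈ V₁
    · rw [Finset.piecewise_eq_of_mem _ _ _ h2,
        Finset.piecewise_eq_of_notMem _ _ _ (fun h => (m2 h).2 h2)]
    · rw [Finset.piecewise_eq_of_notMem _ _ _ h2, Finset.piecewise_eq_of_notMem _ _ _ h2]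
  · rintro ⟨u, z₁, z₂⟩ hq
    rw [Finset.mem_sigma, Finset.mem_product] at hq
    obtain ⟨hu, hz₁, hz₂⟩ := hq
    have hu' := mC.1 hu
    have hz₁' := (Finset.mem_filter.1 hz₁).2
    have hz₂' := (Finset.mem_filter.1 hz₂).2
    simp only [Sigma.mk.injEq, heq_eq_eq, Prod.mk.injEq]
    refine ⟨?_, ?_, ?_⟩
    · ext v
      by_cases hv : v ∈ S
      · have n1 : v ∉ V₁ := fun h => (m1 h).1 hv
        have n2 : v ∉ V₂ := fun h => (m2 h).1 hv
        rw [Finset.piecewise_eq_of_mem _ _ _ hv, Finset.piecewise_eq_of_notMem _ _ _ n1]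
        exact hz₂' v n2
      · rw [Finset.piecewise_eq_of_notMem _ _ _ hv]
        exact (hu' v hv).symm
    · ext v
      by_cases h2 : v ∈ V₂
      · rw [Finset.piecewise_eq_of_mem _ _ _ h2]
        exact ((hz₁' v (m2 h2).2).trans (hu' v (m2 h2).1)).symm
      · rw [Finset.piecewise_eq_of_notMem _ _ _ h2]
        by_cases h1 : v ∈ V₁
        · rw [Finset.piecewise_eq_of_mem _ _ _ h1]
        · rw [Finset.piecewise_eq_of_notMem _ _ _ h1]
          exact (hz₂' v h2).trans (hz₁' v h1).symm
    · ext v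
      by_cases h1 : v ∈ V₁
      · rw [Finset.piecewise_eq_of_mem _ _ _ h1]
        exact ((hz₂' v (fun h => (m2 h).2 h1)).trans (hu' v (m1 h1).1)).symm
      · rw [Finset.piecewise_eq_of_notMem _ _ _ h1, Finset.piecewise_eq_of_notMem _ _ _ h1]
  · intro z _
    dsimp only
    have hE : ∀ t ∈ E, φ t z = φ t (V₂.piecewise (fun _ => b₀) z) := fun t ht =>
      hN.dep t _ _ fun v hv => (Finset.piecewise_eq_of_notMem _ _ _
        (fun h => (m2' h).2 t ht hv)).symm
    have hE' : ∀ t ∈ Eᶜ, φ t z = φ t (V₁.piecewise (fun _ => b₀) z) := fun t ht =>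
      hN.dep t _ _ fun v hv => (Finset.piecewise_eq_of_notMem _ _ _
        (fun h => (m1 h).2.2 t (Finset.mem_compl.1 ht) hv)).symm
    have hD : ∀ i ∈ D, V₂.piecewise (fun _ => b₀) z (e i) = z (e i) := fun i hi =>
      Finset.piecewise_eq_of_notMem _ _ _ (fun h => (m2' h).1 i hi rfl)
    have hD' : ∀ i ∉ D, V₁.piecewise (fun _ => b₀) z (e i) = z (e i) := fun i hi =>
      Finset.piecewise_eq_of_notMem _ _ _ (fun h => (m1 h).2.1 i hi rfl)
    rw [← Finset.prod_congr rfl hE, ← Finset.prod_congr rfl hE']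
    by_cases c1 : ∀ i ∈ D, z (e i) = x i
    · by_cases c2 : ∀ i ∉ D, z (e i) = y i
      · rw [if_pos, if_pos, if_pos, Finset.prod_mul_prod_compl]
        · intro i hi
          rw [hD' i hi, c2 i hi]
        · intro i hi
          rw [hD i hi, c1 i hi]
        · intro i
          by_cases hi : i ∈ D
          · rw [Finset.piecewise_eq_of_mem _ _ _ hi, c1 i hi]
          · rw [Finset.piecewise_eq_of_notMem _ _ _ hi, c2 i hi]
      · rw [if_neg, if_neg (c := ∀ i ∉ D, _), mul_zero]
        · intro h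
          exact c2 fun i hi => (hD' i hi).symm.trans (h i hi)
        · intro h
          exact c2 fun i hi => (h i).trans (Finset.piecewise_eq_of_notMem _ _ _ hi)
    · rw [if_neg, if_neg (c := ∀ i ∈ D, _), zero_mul]
      · intro h
        exact c1 fun i hi => (hD i hi).symm.trans (h i hi)
      · intro h
        exact c1 fun i hi => (h i).trans (Finset.piecewise_eq_of_mem _ _ _ hi)

end Network

/-! ## trees with prescribed blocks -/

section Ht

variable {ι : Type*} [DecidableEq ι]

/-- `A` is empty or the set of a binary tree all of whose blocks satisfy `P`. -/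
def Ht (P : Finset ι → Prop) (A : Finset ι) : Prop :=
  A = ∅ ∨ ∃ T : Helper84.TN.Tree ι, T.Proper ∧ T.set = A ∧ ∀ D ∈ T.blocks, P D

theorem Ht.join {P : Finset ι → Prop} {A C : Finset ι} (hA : Ht P A) (hC : Ht P C)
    (hd : Disjoint A C) (h : P (A ∪ C)) : Ht P (A ∪ C) := by
  rcases hA with rfl | ⟨T, hT, rfl, hb⟩
  · rwa [Finset.empty_union]
  · rcases hC with rfl | ⟨T', hT', rfl, hb'⟩
    · rw [Finset.union_empty]
      exact Or.inr ⟨T, hT, rfl, hb⟩
    · refine Or.inr ⟨.node T T', ⟨hT, hT', hd⟩, rfl, fun D hD => ?_⟩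
      rw [Helper84.TN.Tree.blocks, Set.mem_insert_iff] at hD
      rcases hD with rfl | hD | hD
      · exact h
      · exact hb D hD
      · exact hb' D hD

theorem Ht.single {P : Finset ι → Prop} {i : ι} (h : P {i}) : Ht P {i} := by
  refine Or.inr ⟨.leaf i, trivial, rfl, fun D hD => ?_⟩
  rw [Helper84.TN.Tree.blocks, Set.mem_singleton_iff] at hD
  rwa [hD]

theorem Ht.extend {P : Finset ι → Prop} {C : Finset ι} (hC : Ht P C) (X : Finset ι)
    (hX : Disjoint X C) (h1 : ∀ i ∈ X, P {i}) (h2 : ∀ Y ⊆ X, P (Y ∪ C)) : Ht P (X ∪ C) := by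
  induction X using Finset.induction_on with
  | empty => rwa [Finset.empty_union]
  | insert i X hi ih =>
    have hd := Finset.disjoint_insert_left.1 hX
    have h3 := ih hd.2 (fun j hj => h1 j (Finset.mem_insert_of_mem hj))
      (fun Y hY => h2 Y (hY.trans (Finset.subset_insert i X)))
    rw [Finset.insert_union, Finset.insert_eq]
    refine (Ht.single (h1 i (Finset.mem_insert_self i X))).join h3 ?_ ?_
    · rw [Finset.disjoint_singleton_left, Finset.mem_union]
      rintro (h | h)
      · exact hi h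
      · exact hd.1 h
    · rw [← Finset.insert_eq, ← Finset.insert_union]
      exact h2 _ (Finset.Subset.refl _)

end Ht

/-! ## tree decompositions -/

/-- a binary tree of bags -/
inductive TD (V : Type*) : Type _
  | leaf (X : Finset V) : TD V
  | node (X : Finset V) (l r : TD V) : TD V

section Decomposition

variable {V : Type*} [DecidableEq V]

/-- the bag of the root -/
def TD.bag : TD V → Finset V
  | .leaf X => X
  | .node X _ _ => X

/-- the union of all bags -/
def TD.vars : TD V → Finset V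
  | .leaf X => X
  | .node X l r => X ∪ (l.vars ∪ r.vars)

/-- the bags -/
def TD.bags : TD V → Set (Finset V)
  | .leaf X => {X}
  | .node X l r => insert X (l.bags ∪ r.bags)

/-- The bags which contain a given variable form a connected part of the tree. -/
def TD.Ok : TD V → Prop
  | .leaf _ => True
  | .node X l r => l.Ok ∧ r.Ok ∧ l.vars ∩ r.vars ⊆ X ∧ X ∩ l.vars ⊆ l.bag ∧ X ∩ r.vars ⊆ r.bag

theorem TD.sub_vars {T : TD V} {X : Finset V} (h : X ∈ T.bags) : X ⊆ T.vars := by
  induction T with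
  | leaf Y =>
    rw [TD.bags, Set.mem_singleton_iff] at h
    rw [h]
    exact Finset.Subset.refl _
  | node Y l r ihl ihr =>
    rw [TD.bags, Set.mem_insert_iff] at h
    rw [TD.vars]
    rcases h with rfl | h | h
    · exact Finset.subset_union_left
    · exact (ihl h).trans (Finset.subset_union_left.trans Finset.subset_union_right)
    · exact (ihr h).trans (Finset.subset_union_right.trans Finset.subset_union_right)

omit [DecidableEq V] in
theorem TD.bag_mem (T : TD V) : T.bag ∈ T.bags := by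
  cases T with
  | leaf X => exact Set.mem_singleton _
  | node X l r => exact Set.mem_insert _ _

variable {ι τ : Type*} [DecidableEq ι] [Fintype ι] [Fintype τ] [DecidableEq τ]

/-- the digits which occur in `T` but not in `O` -/
def dig (e : ι → V) (T : TD V) (O : Finset V) : Finset ι :=
  Finset.univ.filter fun i => e i ∈ T.vars ∧ e i ∉ O

/-- some set of at most `w` variables separates `D` -/
def Good (e : ι → V) (B : τ → Finset V) (w : ℕ) (D : Finset ι) : Prop :=
  ∃ (S : Finset V) (E : Finset τ), S.card ≤ w ∧ Sep e B D E S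

omit [DecidableEq V] [DecidableEq ι] [Fintype ι] [Fintype τ] [DecidableEq τ] in
theorem good_single (e : ι → V) (B : τ → Finset V) {w : ℕ} (hw : 1 ≤ w) (i : ι) :
    Good e B w {i} := by
  refine ⟨{e i}, ∅, by rwa [Finset.card_singleton], fun v hv => Or.inr ⟨fun j hj h => ?_,
    fun t ht => absurd ht (Finset.notMem_empty t)⟩⟩
  rw [Finset.mem_singleton.1 hj] at h
  exact hv (Finset.mem_singleton.2 h.symm)

theorem ht_dig (e : ι → V) (B : τ → Finset V) {w : ℕ} (hw1 : 1 ≤ w) (T : TD V) (hT : T.Ok)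
    (hw : ∀ X ∈ T.bags, X.card ≤ w) (O : Finset V) (hO : O ∩ T.vars ⊆ T.bag) (E : Finset τ)
    (hE : ∀ t ∈ E, ∃ X ∈ T.bags, B t ⊆ X) (hE' : ∀ t ∉ E, B t ⊆ O) :
    Ht (Good e B w) (dig e T O) := by
  classical
  induction T generalizing O E with
  | leaf X =>
    have h0 : Ht (Good e B w) (∅ : Finset ι) := Or.inl rfl
    have := h0.extend (dig e (.leaf X) O) (Finset.disjoint_empty_right _)
      (fun i _ => good_single e B hw1 i) (fun Y hY => ?_)
    · rwa [Finset.union_empty] at this
    · rw [Finset.union_empty]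
      refine ⟨X, E, hw X (Set.mem_singleton _), fun v hv => Or.inr ⟨fun i hi h => ?_,
        fun t ht h => ?_⟩⟩
      · have h1 := (Finset.mem_filter.1 (hY hi)).2.1
        rw [h] at h1
        exact hv h1
      · obtain ⟨Z, hZ, hBZ⟩ := hE t ht
        rw [TD.bags, Set.mem_singleton_iff] at hZ
        rw [hZ] at hBZ
        exact hv (hBZ h)
  | node X l r ihl ihr =>
    obtain ⟨hl, hr, hlr, hXl, hXr⟩ := hT
    have hbl : ∀ Y ∈ l.bags, Y ∈ (TD.node X l r).bags := fun Y hY => Or.inr (Or.inl hY)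
    have hbr : ∀ Y ∈ r.bags, Y ∈ (TD.node X l r).bags := fun Y hY => Or.inr (Or.inr hY)
    have hvars : (TD.node X l r).vars = X ∪ (l.vars ∪ r.vars) := rfl
    have hOX : ∀ v ∈ O, v ∈ X ∪ (l.vars ∪ r.vars) → v ∈ X := fun v hv h =>
      hO (Finset.mem_inter.2 ⟨hv, h⟩)
    have hLR : ∀ v, v ∈ l.vars → v ∈ r.vars → v ∈ X := fun v h1 h2 =>
      hlr (Finset.mem_inter.2 ⟨h1, h2⟩)
    -- the left part
    have hL := ihl hl (fun Y hY => hw Y (hbl Y hY)) (O ∪ (X ∪ r.vars)) (fun v hv => by
        rw [Finset.mem_inter, Finset.mem_union, Finset.mem_union] at hv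
        obtain ⟨hv | hv | hv, hvl⟩ := hv
        · exact hXl (Finset.mem_inter.2 ⟨hOX v hv (Finset.mem_union_right _
            (Finset.mem_union_left _ hvl)), hvl⟩)
        · exact hXl (Finset.mem_inter.2 ⟨hv, hvl⟩)
        · exact hXl (Finset.mem_inter.2 ⟨hLR v hvl hv, hvl⟩))
      (E.filter fun t => ∃ Y ∈ l.bags, B t ⊆ Y) (fun t ht => (Finset.mem_filter.1 ht).2)
      (fun t ht => by
        by_cases hE1 : t ∈ E
        · obtain ⟨Y, hY, hBY⟩ := hE t hE1
          rw [TD.bags, Set.mem_insert_iff] at hY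
          rcases hY with rfl | hY | hY
          · exact hBY.trans (Finset.subset_union_left.trans Finset.subset_union_right)
          · exact absurd (Finset.mem_filter.2 ⟨hE1, Y, hY, hBY⟩) ht
          · exact hBY.trans ((TD.sub_vars hY).trans
              (Finset.subset_union_right.trans Finset.subset_union_right))
        · exact (hE' t hE1).trans Finset.subset_union_left)
    -- the right part
    have hR := ihr hr (fun Y hY => hw Y (hbr Y hY)) (O ∪ (X ∪ l.vars)) (fun v hv => by
        rw [Finset.mem_inter, Finset.mem_union, Finset.mem_union] at hv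
        obtain ⟨hv | hv | hv, hvr⟩ := hv
        · exact hXr (Finset.mem_inter.2 ⟨hOX v hv (Finset.mem_union_right _
            (Finset.mem_union_right _ hvr)), hvr⟩)
        · exact hXr (Finset.mem_inter.2 ⟨hv, hvr⟩)
        · exact hXr (Finset.mem_inter.2 ⟨hLR v hv hvr, hvr⟩))
      (E.filter fun t => ∃ Y ∈ r.bags, B t ⊆ Y) (fun t ht => (Finset.mem_filter.1 ht).2)
      (fun t ht => by
        by_cases hE1 : t ∈ E
        · obtain ⟨Y, hY, hBY⟩ := hE t hE1
          rw [TD.bags, Set.mem_insert_iff] at hY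
          rcases hY with rfl | hY | hY
          · exact hBY.trans (Finset.subset_union_left.trans Finset.subset_union_right)
          · exact hBY.trans ((TD.sub_vars hY).trans
              (Finset.subset_union_right.trans Finset.subset_union_right))
          · exact absurd (Finset.mem_filter.2 ⟨hE1, Y, hY, hBY⟩) ht
        · exact (hE' t hE1).trans Finset.subset_union_left)
    set DL := dig e l (O ∪ (X ∪ r.vars)) with hDL
    set DR := dig e r (O ∪ (X ∪ l.vars)) with hDR
    set own : Finset ι := Finset.univ.filter fun i => e i ∈ X ∧ e i ∉ O with hown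
    have mL : ∀ i, i ∈ DL ↔ e i ∈ l.vars ∧ e i ∉ O ∧ e i ∉ X ∧ e i ∉ r.vars := fun i => by
      rw [hDL, dig, Finset.mem_filter]
      simp [not_or]
    have mR : ∀ i, i ∈ DR ↔ e i ∈ r.vars ∧ e i ∉ O ∧ e i ∉ X ∧ e i ∉ l.vars := fun i => by
      rw [hDR, dig, Finset.mem_filter]
      simp [not_or]
    have mO : ∀ i, i ∈ own ↔ e i ∈ X ∧ e i ∉ O := fun i => by
      rw [hown, Finset.mem_filter]
      simp
    have key : ∀ Y ⊆ own, Good e B w (Y ∪ (DL ∪ DR)) := by
      intro Y hY
      refine ⟨X, E, hw X (Set.mem_insert _ _), fun v hv => ?_⟩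
      by_cases hvT : v ∈ l.vars ∪ r.vars
      · have hvO : v ∉ O := fun h => hv (hOX v h (Finset.mem_union_right _ hvT))
        refine Or.inl ⟨fun i hi h => hi ?_, fun t ht h => hvO (hE' t ht h)⟩
        refine Finset.mem_union_right _ ?_
        rw [Finset.mem_union, mL, mR, h]
        rcases Finset.mem_union.1 hvT with h1 | h1
        · exact Or.inl ⟨h1, hvO, hv, fun h2 => hv (hLR v h1 h2)⟩
        · exact Or.inr ⟨h1, hvO, hv, fun h2 => hv (hLR v h2 h1)⟩
      · refine Or.inr ⟨fun i hi h => ?_, fun t ht h => ?_⟩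
        · rw [Finset.mem_union, Finset.mem_union, mL, mR, h] at hi
          rcases hi with hi | hi | hi
          · have := (mO i).1 (hY hi)
            rw [h] at this
            exact hv this.1
          · exact hvT (Finset.mem_union_left _ hi.1)
          · exact hvT (Finset.mem_union_right _ hi.1)
        · obtain ⟨Z, hZ, hBZ⟩ := hE t ht
          have h1 := TD.sub_vars hZ (hBZ h)
          rw [hvars, Finset.mem_union] at h1
          rcases h1 with h1 | h1
          · exact hv h1
          · exact hvT h1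
    have hdLR : Disjoint DL DR := by
      rw [Finset.disjoint_left]
      intro i hi hi'
      exact ((mL i).1 hi).2.2.2 ((mR i).1 hi').1
    have h0 : Ht (Good e B w) (DL ∪ DR) := by
      refine hL.join hR hdLR ?_
      have := key ∅ (Finset.empty_subset _)
      rwa [Finset.empty_union] at this
    have h1 := h0.extend own (by
      rw [Finset.disjoint_left]
      intro i hi hi'
      rw [Finset.mem_union, mL, mR] at hi'
      rcases hi' with hi' | hi'
      · exact hi'.2.2.1 ((mO i).1 hi).1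
      · exact hi'.2.2.1 ((mO i).1 hi).1) (fun i _ => good_single e B hw1 i) key
    have h2 : dig e (.node X l r) O = own ∪ (DL ∪ DR) := by
      ext i
      rw [Finset.mem_union, Finset.mem_union, mL, mR, mO, dig, Finset.mem_filter, hvars,
        Finset.mem_union, Finset.mem_union]
      constructor
      · rintro ⟨-, h | h, hO'⟩
        · exact Or.inl ⟨h, hO'⟩
        · by_cases hX : e i ∈ X
          · exact Or.inl ⟨hX, hO'⟩
          · rcases h with h | h
            · exact Or.inr (Or.inl ⟨h, hO', hX, fun h' => hX (hLR _ h h')⟩)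
            · exact Or.inr (Or.inr ⟨h, hO', hX, fun h' => hX (hLR _ h' h)⟩)
      · rintro (h | h | h)
        · exact ⟨Finset.mem_univ _, Or.inl h.1, h.2⟩
        · exact ⟨Finset.mem_univ _, Or.inr (Or.inl h.1), h.2.1⟩
        · exact ⟨Finset.mem_univ _, Or.inr (Or.inr h.1), h.2.1⟩
    rw [h2]
    exact h1

end Decomposition

/-- **A network of treewidth less than `w` has tree rank at most `|β| ^ w`.** -/
theorem exists_tree {ι β F V τ : Type*} [DecidableEq ι] [Fintype ι] [Nonempty ι] [Fintype β]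
    [DecidableEq β] [Nonempty β] [Field F] [Fintype V] [DecidableEq V] [Fintype τ] [DecidableEq τ]
    {e : ι → V} {B : τ → Finset V} {φ : τ → (V → β) → F} {f : (ι → β) → F} (hN : Net e B φ f)
    (T : TD V) (hT : T.Ok) (w : ℕ) (hw : ∀ X ∈ T.bags, X.card ≤ w)
    (hB : ∀ t, ∃ X ∈ T.bags, B t ⊆ X) (he : ∀ i, ∃ X ∈ T.bags, e i ∈ X) :
    ∃ T' : Helper84.TN.Tree ι, T'.Proper ∧ T'.set = Finset.univ ∧
      ∀ D ∈ T'.blocks, rk f D ≤ Fintype.card β ^ w := by
  classical
  obtain ⟨i₀⟩ := ‹Nonempty ι›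
  have hw1 : 1 ≤ w := by
    obtain ⟨X, hX, hi⟩ := he i₀
    exact le_trans (Finset.card_pos.2 ⟨_, hi⟩) (hw X hX)
  have h := ht_dig e B hw1 T hT hw ∅ (by simp) Finset.univ (fun t _ => hB t)
    (fun t ht => absurd (Finset.mem_univ t) ht)
  have hu : dig e T ∅ = Finset.univ := by
    ext i
    obtain ⟨X, hX, hi⟩ := he i
    simpa [dig] using TD.sub_vars hX hi
  rw [hu] at h
  rcases h with h | ⟨T', h1, h2, h3⟩
  · exact absurd (Finset.mem_univ i₀) (h ▸ Finset.notMem_empty i₀)
  · refine ⟨T', h1, h2, fun D hD => ?_⟩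
    obtain ⟨S, E, hS, hsep⟩ := h3 D hD
    exact (rk_sep hN hsep).trans (Nat.pow_le_pow_right Fintype.card_pos hS)

end Pool.Agent.Helper79.TN
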